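import Pool.Agent.H18.GZ.Targets3

/-!
# Row SPF of the board gz_modules: one value on the critical line
-/

set_option autoImplicit false

namespace Pool.Agent.H69.GZ

open MeasureTheory Pool.Agent.H34.GM Pool.Agent.H34.GZ

/-- a form with norm different from `0` has a non zero value at an invertible matrix -/
theorem nz_of_nF {m q : ℕ} [NeZero q] (hm : 1 ≤ m) {D : Set (V m)} (hD : DomZ m D)
    {F : Mat m → RM m q → ℂ} (h : nF D F ≠ 0) : NZ F := by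
  by_contra hc
  apply h
  unfold nF
  refine Finset.sum_eq_zero fun x _ => setIntegral_eq_zero_of_forall_eq_zero fun z hz => ?_
  have h1 : (mt z).det ≠ 0 := by
    intro h0
    have h2 := (hD.shell z hz).1
    unfold aN at h2
    rw [h0, abs_zero, Real.zero_rpow (by
      have : (0 : ℝ) < m := by exact_mod_cast hm
      positivity)] at h2
    linarith
  have h3 : F (mt z) x = 0 := by
    by_contra h4
    exact hc ⟨mt z, x, h1, h4⟩
  rw [h3]
  simp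

theorem pf_SPF (hABL : T_ABL) (hDYS : T_DYS) (hADJ : T_ADJ) (hSMZ : T_SMZ) (hSPZ : T_SPZ)
    (hLMZ : T_LMZ) : T_SPF := by
  intro m hm ε J hε hJ
  obtain ⟨K, C, hK, hC, hA⟩ := hABL m hm ε J hε hJ
  obtain ⟨C0, hC0, hY⟩ := hDYS m hm
  refine ⟨K, 2 * C * C0, hK, by positivity, ?_⟩
  intro q _ T D hS F lam mu hF hn Φ M hΦ hT1 hT2 t
  obtain ⟨C1, hC1, hL⟩ := hLMZ m q T D hS F lam mu hF.toEigZ (nz_of_nF hm hS.dom hn)
  have hq1 : 1 ≤ q := by have := hS.two_le; omega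
  have hqr : (1 : ℝ) ≤ q := by exact_mod_cast hq1
  have hM : 0 ≤ M := by
    have h1 := hT1.bd0 1 one_pos
    rw [one_pow, Real.one_rpow, min_self, mul_one] at h1
    exact (norm_nonneg _).trans h1
  obtain ⟨iF, iD, hspz⟩ := hSPZ m q lam mu hm hS.two_le hF.tr0 Φ hΦ.toTst (fun N => by
    obtain ⟨C2, -, h2⟩ := hSMZ m q T D hS F lam mu hF hn Φ hΦ N
    exact ⟨C2, h2⟩)
  obtain ⟨I, hI⟩ : ∃ I : ENNReal, I = ∫⁻ y in Set.Ioi (1 : ℝ), ENNReal.ofReal
      (‖DF m q lam y‖ * y ^ (-((m : ℝ) / 2) - 1) * wJ m q J y) := ⟨_, rfl⟩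
  rw [← hI]
  have hSD := hY q J lam hq1 hJ
  rw [← hI] at hSD
  -- both halves
  have key : ∀ Ψ : Mat m → ℂ, ThB Ψ mu M ε K →
      ∫⁻ r in Set.Ioc (0 : ℝ) (Real.sqrt q), ENNReal.ofReal
        (‖thF q Ψ mu lam r‖ * r ^ (-((m : ℝ) ^ 2 / 2) - 1)) ≤
      ENNReal.ofReal (C * M * (q : ℝ) ^ (ε / 2)) * (ENNReal.ofReal C0 * I) := by
    intro Ψ hΨ
    exact (hA q Ψ mu lam M C1 hq1 hΨ hL).trans (mul_le_mul' le_rfl hSD)
  have hr0 : ∀ r ∈ Set.Ioc (0 : ℝ) (Real.sqrt q), 0 ≤ r ^ (-((m : ℝ) ^ 2 / 2) - 1) :=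
    fun r hr => Real.rpow_nonneg hr.1.le _
  have h1 : ENNReal.ofReal (∫ r in Set.Ioc (0 : ℝ) (Real.sqrt q), ‖thF q Φ mu lam r‖ *
      r ^ (-((m : ℝ) ^ 2 / 2) - 1)) ≤
      ENNReal.ofReal (C * M * (q : ℝ) ^ (ε / 2)) * (ENNReal.ofReal C0 * I) := by
    rw [ofReal_integral_eq_lintegral_ofReal iF
      ((ae_restrict_mem measurableSet_Ioc).mono fun r hr =>
        mul_nonneg (norm_nonneg _) (hr0 r hr))]
    exact key Φ hT1
  have h2 : ENNReal.ofReal (∫ r in Set.Ioc (0 : ℝ) (Real.sqrt q), ‖thDz q Φ mu lam r‖ *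
      r ^ (-((m : ℝ) ^ 2 / 2) - 1)) ≤
      ENNReal.ofReal (C * M * (q : ℝ) ^ (ε / 2)) * (ENNReal.ofReal C0 * I) := by
    rw [ofReal_integral_eq_lintegral_ofReal iD
      ((ae_restrict_mem measurableSet_Ioc).mono fun r hr =>
        mul_nonneg (norm_nonneg _) (hr0 r hr))]
    refine le_trans ?_ (key _ hT2)
    refine setLIntegral_mono' measurableSet_Ioc fun r hr => ENNReal.ofReal_le_ofReal ?_
    exact mul_le_mul_of_nonneg_right (hADJ m q T D hS F lam mu hF hn Φ hΦ r hr.1) (hr0 r hr)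
  calc ENNReal.ofReal ‖Lm q Φ mu lam (1 / 2 + t * Complex.I)‖ ≤ _ :=
        ENNReal.ofReal_le_ofReal (hspz t)
    _ ≤ _ := ENNReal.ofReal_add_le
    _ ≤ _ := add_le_add h1 h2
    _ = ENNReal.ofReal (2 * C * C0 * M * (q : ℝ) ^ (ε / 2)) * I := by
        rw [← two_mul, ← mul_assoc, ← mul_assoc, ← ENNReal.ofReal_ofNat 2,
          ← ENNReal.ofReal_mul (by norm_num), ← ENNReal.ofReal_mul (by positivity)]
        congr 2
        ring
    _ ≤ _ := by
        refine mul_le_mul' (ENNReal.ofReal_le_ofReal ?_) le_rfl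
        refine mul_le_mul_of_nonneg_left ?_ (by positivity)
        exact Real.rpow_le_rpow_of_exponent_le hqr (by linarith)

end Pool.Agent.H69.GZ
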